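import Pool.Agent.H52.PH.Final2

/-!
# MP_6c6114_an, Q1: linear decay of the flux of planar `p`-harmonic functions

For `p ≥ 2` the decay estimate with exponent `β = 1` holds for every planar `p`-harmonic function,
with a constant depending only on `p`.
-/

open MeasureTheory Set Metric

namespace Pool.Agent.Results.MP_6c6114_an.LinearDecay

open Pool.Agent.H52.PH

theorem result (p : ℝ) (hp : 2 ≤ p) : ∃ c : ℝ, 0 < c ∧
    ∀ Ω : Set ℂ, IsOpen Ω → ∀ (h : ℂ → ℝ) (G : ℂ → ℂ), IsPHarmonic p Ω h G →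
    ∀ (x : ℂ) (r : ℝ), 0 < r → ball x r ⊆ Ω → IntegrableOn (fun z => flux p (G z)) (ball x r) →
    ∀ θ ∈ Ioo (0 : ℝ) 1,
      ⨍ z in ball x (θ * r), ‖flux p (G z) - ⨍ w in ball x (θ * r), flux p (G w)‖ ≤
        c * θ * ⨍ z in ball x r, ‖flux p (G z) - ⨍ w in ball x r, flux p (G w)‖ :=
  linear_decay hp

end Pool.Agent.Results.MP_6c6114_an.LinearDecay
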